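import Pool.Agent.W_MP_416086_gt.Scale

set_option autoImplicit false

open Pool.Agent.W_MP_416086_gt

namespace Pool.Agent.Results.MP_416086_gt.SolCollapse

/-- Negative answer to Q1 of `MP_416086_gt` (in the negated form of the problem file, with `n = 4`
and for every `k ≥ 1`, `κ > 0`, `V > 0`): for every `m` there is a closed Riemannian 4-manifold
`M = Γ \ ℝ⁴` with `Ric ≥ -3κ`, volume `V` and universal cover `Sol³ × ℝ` (with its homogeneous
metric rescaled by `κ⁻¹`), such that the multiplicity of `λ_k(M)` is at least `m`. -/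
theorem result : ∀ (k m : ℕ) (κ V : ℝ), 1 ≤ k → 0 < κ → 0 < V →
    ∃ (M : ClosedManifold 4) (lam : ℝ), M.RicciLowerBound κ ∧ M.HasVolume V ∧ M.IsSolK κ ∧
      M.IsLambda k lam ∧ (m : Cardinal) ≤ Module.rank ℝ (M.eigenspace lam) := by
  intro k m κ V hk hκ hV
  obtain ⟨M, lam, -, h⟩ := main_all k m hk κ V hκ hV
  exact ⟨M, lam, h⟩

end Pool.Agent.Results.MP_416086_gt.SolCollapse
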